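import Pool.Agent.Helper53.CTG.Goals

/-!
# PROJECT CTG (MP_8b4d68_lc): packet FX
-/

namespace Pool.Agent.Helper4.CTG

open Pool.Agent.Helper53.CTG
open Pool.Agent.Helper1.TE (Gad app cif ctab bitc seed wN vN addm NumMach codeB word CodeOK)
open Pool.Agent.Helper65.LinSpace (dig tab nrec ifz eq01 le01 lt01 capPow Ctx)
open Finset

/-- A run with a new first step. -/
theorem runs_head {S : Type} (step : ℕ → ℕ → S → Option S) {γ : ℕ → ℕ} {n a : ℕ} {s s' : S}
    (h0 : step 0 a s = some s') (h : (runs (fun t => step (1 + t)) γ n s').isSome) :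
    (runs step (fun t => if t = 0 then a else γ (t - 1)) (n + 1) s).isSome := by
  rw [Nat.add_comm, runs_add, runs_one]
  simp only [if_true]
  rw [h0, Option.bind_some]
  rw [runs_congr (γ' := γ) (step' := fun t => step (1 + t))]
  · exact h
  · intro t _
    have h1 : 1 + t ≠ 0 := by omega
    have h2 : 1 + t - 1 = t := by omega
    simp only [h1, if_false, h2]

/-- From the rejecting state only the rejecting state is reachable. -/
theorem nx_rej (ok : ℕ → ℕ → ℕ → ℕ → ℕ) (tst : ℕ → ℕ) (mal : ℕ) (w : List Bool) (γ : ℕ) :
    (machM ok tst mal).nx w rejS γ = rejS := by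
  unfold NumMach.nx
  generalize codeB w[(machM ok tst mal).addr rejS]? = y
  simp [machM, nextM, nextN, cif, rejS, hdr, Sta.mo, eq01]

theorem reach_rej (ok : ℕ → ℕ → ℕ → ℕ → ℕ) (tst : ℕ → ℕ) (mal : ℕ) (w : List Bool) (y : Sta)
    (h : Relation.ReflTransGen (fun x x' => ∃ γ < 2, x' = (machM ok tst mal).nx w x γ) rejS y) :
    y = rejS := by
  induction h with
  | refl => rfl
  | tail _ h2 ih =>
    obtain ⟨γ, _, rfl⟩ := h2
    rw [ih]
    exact nx_rej ok tst mal w γ

theorem acc_ne_rej : accS ≠ rejS := by
  intro h
  have h2 := congrArg Sta.mo h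
  simp [accS, rejS, hdr, Sta.mo] at h2

theorem acc_ne_main (N q b c u W τ g t : ℕ) (D : De) (X S A : ℕ) :
    accS ≠ mainS N q b c u W τ g t D X S A := by
  intro h
  have h2 := congrArg Sta.mo h
  simp [accS, mainS, hdr, Sta.mo] at h2

/-- The next state in the main loop. -/
theorem nx_main (ok : ℕ → ℕ → ℕ → ℕ → ℕ) (tst : ℕ → ℕ) (mal : ℕ) (w : List Bool)
    (N q b c u W τ g t : ℕ) (D : De) (X S A γ : ℕ) : ∃ z : ℕ,
    (machM ok tst mal).nx w (mainS N q b c u W τ g t D X S A) γ = rejS ∨
    (machM ok tst mal).nx w (mainS N q b c u W τ g t D X S A) γ =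
      if Nt N q - u = 0 then
        (if Nt N q + 3 * b - u = 0 then
          (if Nt N q + 4 * b - u = 0 then
            (if bigT tst b c W D g t X A = 0 then rejS
              else if (τ + 1) / 13 ^ Nt N q = 0 then
                mainS N q b c 0 W (τ + 1) 0 0 (root N q) (bigX N q b c W D g t X S A)
                  (bigS N q b c W D t X S A) (bigA c W D t A)
              else accS)
            else mainS N q b c (u + 1) W τ g z D X S A)
          else mainS N q b c (u + 1) W τ (2 * g + γ) t D X S A)
      else mainS N q b c (u + 1) W τ g t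
        (sub q D (Nt N q - 1 - u) (dig 13 τ (Nt N q - 1 - u))) X S A := by
  refine ⟨2 * t + (codeB w[(machM ok tst mal).addr (mainS N q b c u W τ g t D X S A)]? - 1), ?_⟩
  unfold NumMach.nx
  generalize codeB w[(machM ok tst mal).addr (mainS N q b c u W τ g t D X S A)]? = y
  change nextM ok tst mal (mainS N q b c u W τ g t D X S A) y γ = rejS ∨
    nextM ok tst mal (mainS N q b c u W τ g t D X S A) y γ = _
  unfold nextM
  by_cases hq : γ * (1 - gqM (mainS N q b c u W τ g t D X S A)) = 0
  · right
    rw [hq]
    rfl
  · left
    simp only [cif, if_neg hq]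
    rfl

/-- Inversion of the invariant in mode 6. -/
theorem inv_main {ok : ℕ → ℕ → ℕ → ℕ → ℕ} {tst : ℕ → ℕ} {mal : ℕ} {w : List Bool}
    {N q b c u W τ g t : ℕ} {D : De} {X S A : ℕ}
    (hI : Inv ok tst mal w (mainS N q b c u W τ g t D X S A)) :
    Full ok w N q b c ∧ τ < 13 ^ Nt N q ∧ u ≤ Nt N q + 4 * b ∧
      g < 2 ^ min (u - Nt N q) (3 * b) ∧ D = dec q (root N q) (Nt N q) τ (min u (Nt N q)) ∧
      t = word (dat w N q b c) (blkM b c (2 ^ Et N q b c) D A g * b) (u - (Nt N q + 3 * b)) ∧
      X < (2 ^ Eb b) ^ (3 * q + 4) ∧ S < (2 ^ Fb N q b) ^ (3 * q + 4) ∧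
      Rchd tst w N q b c τ (toF N q b X S, A) := by
  generalize hx : mainS N q b c u W τ g t D X S A = x at hI
  cases hI with
  | rej => exact absurd (congrArg Sta.mo hx) (by simp [mainS, rejS, hdr, Sta.mo])
  | m0 N' h1 => exact absurd (congrArg Sta.mo hx) (by simp [mainS, hdr, Sta.mo])
  | m1 N' q' h1 => exact absurd (congrArg Sta.mo hx) (by simp [mainS, hdr, Sta.mo])
  | m2 N' q' b' h1 => exact absurd (congrArg Sta.mo hx) (by simp [mainS, hdr, Sta.mo])
  | m3 N' q' b' c' h1 => exact absurd (congrArg Sta.mo hx) (by simp [mainS, hdr, Sta.mo])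
  | m4 N' q' b' c' u' h1 hu h2 => exact absurd (congrArg Sta.mo hx) (by simp [mainS, hdr, Sta.mo])
  | m5 N' q' b' c' u' h1 hu => exact absurd (congrArg Sta.mo hx) (by simp [mainS, hdr, Sta.mo])
  | m7 h1 => exact absurd (congrArg Sta.mo hx) (by simp [mainS, accS, hdr, Sta.mo])
  | m6 N' q' b' c' u' τ' g' t' D' X' S' A' h1 hτ hu hg hD ht hX hS hC =>
    have e1 : N = N' := congrArg Sta.N hx
    have e2 : q = q' := congrArg Sta.q hx
    have e3 : b = b' := congrArg Sta.b hx
    have e4 : c = c' := congrArg Sta.c hx
    have e5 : u = u' := congrArg Sta.u hx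
    have e6 : τ = τ' := congrArg Sta.τ hx
    have e7 : g = g' := congrArg Sta.g hx
    have e8 : t = t' := congrArg Sta.t hx
    have e9 : D = D' := congrArg Sta.D hx
    have e10 : X = X' := congrArg Sta.X hx
    have e11 : S = S' := congrArg Sta.S hx
    have e12 : A = A' := congrArg Sta.A hx
    subst e1 e2 e3 e4 e5 e6 e7 e8 e9 e10 e11 e12
    exact ⟨h1, hτ, hu, hg, hD, ht, hX, hS, hC⟩

theorem gFX : GoalFX := by
  intro _ hStep hInv ok tst mal w
  have key : ∀ x : Sta,
      Relation.ReflTransGen (fun x x' => ∃ γ < 2, x' = (machM ok tst mal).nx w x γ) x accS →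
      Inv ok tst mal w x → ∀ (N q b c u τ g t : ℕ) (D : De) (X S A : ℕ),
      x = mainS N q b c u (2 ^ Et N q b c) τ g t D X S A →
      ∃ g' < 8 ^ b, (Nt N q ≤ u → g' / 2 ^ (3 * b - (u - Nt N q)) = g) ∧
        ∃ E : (ℕ → ℕ × ℕ) × ℕ,
          opM tst w N q b c τ g' (toF N q b X S, A) = some E ∧
          ∃ γ : ℕ → ℕ, (∀ τ', γ τ' < 8 ^ b) ∧
            (runs (fun τ' => opM tst w N q b c (τ + 1 + τ')) γ
              (13 ^ Nt N q - (τ + 1)) E).isSome := by
    intro x hx
    induction hx using Relation.ReflTransGen.head_induction_on with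
    | refl =>
      intro _ N q b c u τ g t D X S A he
      exact absurd he (acc_ne_main _ _ _ _ _ _ _ _ _ _ _ _ _)
    | head hs hr ih =>
      rename_i x y
      intro hI N q b c u τ g t D X S A he
      subst he
      obtain ⟨γ, hγ, hy⟩ := hs
      have hIy : Inv ok tst mal w y := by
        rw [hy]
        exact hInv ok tst mal w _ γ hγ hI
      obtain ⟨hF, hτ, hu, hg, hD, ht, hX, hS, hC⟩ := inv_main hI
      obtain ⟨z, hz | hz⟩ := nx_main ok tst mal w N q b c u (2 ^ Et N q b c) τ g t D X S A γ
      · rw [hz] at hy
        rw [hy] at hr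
        exact absurd (reach_rej ok tst mal w _ hr) acc_ne_rej
      · rw [hz] at hy
        by_cases h0 : Nt N q - u = 0
        · rw [if_pos h0] at hy
          by_cases h1 : Nt N q + 3 * b - u = 0
          · rw [if_pos h1] at hy
            by_cases h2 : Nt N q + 4 * b - u = 0
            · rw [if_pos h2] at hy
              have hu4 : u = Nt N q + 4 * b := by omega
              have hub : u - (Nt N q + 3 * b) = b := by omega
              have hmin : min (u - Nt N q) (3 * b) = 3 * b := by omega
              have hmin2 : min u (Nt N q) = Nt N q := by omega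
              rw [hub] at ht
              rw [hmin] at hg
              rw [hmin2] at hD
              have hg8 : g < 8 ^ b := by
                have h4 : (8 : ℕ) ^ b = 2 ^ (3 * b) := by
                  rw [pow_mul]
                  norm_num
                rw [h4]
                exact hg
              obtain ⟨hst0, hst1⟩ := hStep ok tst w N q b c τ g X S A hF hτ hg8 hX hS hC D t hD ht
              by_cases h3 : bigT tst b c (2 ^ Et N q b c) D g t X A = 0
              · rw [if_pos h3] at hy
                rw [hy] at hr
                exact absurd (reach_rej ok tst mal w _ hr) acc_ne_rej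
              · rw [if_neg h3] at hy
                obtain ⟨s', hs', _, hs3⟩ := hst1 h3
                refine ⟨g, hg8, ?_, s', hs', ?_⟩
                · intro _
                  have e0 : 3 * b - (u - Nt N q) = 0 := by omega
                  rw [e0, pow_zero, Nat.div_one]
                · by_cases h4 : (τ + 1) / 13 ^ Nt N q = 0
                  · rw [if_pos h4] at hy
                    have hlt : τ + 1 < 13 ^ Nt N q := by
                      rcases (Nat.div_eq_zero_iff).mp h4 with h5 | h5
                      · exact absurd h5 (by positivity)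
                      · exact h5
                    obtain ⟨hse, _, _⟩ := hs3 hlt
                    obtain ⟨g', hg', _, E', hE', γ', hγ', hrun⟩ :=
                      ih hIy N q b c 0 (τ + 1) 0 0 _ _ _ _ hy
                    rw [← hse] at hE'
                    have hlen : 13 ^ Nt N q - (τ + 1) = (13 ^ Nt N q - (τ + 1 + 1)) + 1 := by
                      omega
                    refine ⟨fun t => if t = 0 then g' else γ' (t - 1), ?_, ?_⟩
                    · intro τ'
                      dsimp only
                      split_ifs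
                      · exact hg'
                      · exact hγ' _
                    · rw [hlen]
                      refine runs_head (fun τ' => opM tst w N q b c (τ + 1 + τ')) hE' ?_
                      have hfun : (fun t => (fun τ' => opM tst w N q b c (τ + 1 + τ')) (1 + t)) =
                          (fun τ' => opM tst w N q b c (τ + 1 + 1 + τ')) := by
                        funext t
                        change opM tst w N q b c (τ + 1 + (1 + t)) =
                          opM tst w N q b c (τ + 1 + 1 + t)
                        rw [← Nat.add_assoc (τ + 1) 1 t]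
                      rw [hfun]
                      exact hrun
                  · have h5 : 13 ^ Nt N q ≤ τ + 1 := by
                      by_contra h6
                      exact h4 (Nat.div_eq_of_lt (by omega))
                    have hlen : 13 ^ Nt N q - (τ + 1) = 0 := by omega
                    refine ⟨fun _ => 0, fun _ => by positivity, ?_⟩
                    rw [hlen]
                    rfl
            · rw [if_neg h2] at hy
              obtain ⟨g', hg', hd, E, hE, hCh⟩ := ih hIy N q b c (u + 1) τ g z D X S A hy
              refine ⟨g', hg', ?_, E, hE, hCh⟩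
              intro _
              have e1 : 3 * b - (u + 1 - Nt N q) = 3 * b - (u - Nt N q) := by omega
              rw [← e1]
              exact hd (by omega)
          · rw [if_neg h1] at hy
            obtain ⟨g', hg', hd, E, hE, hCh⟩ := ih hIy N q b c (u + 1) τ (2 * g + γ) t D X S A hy
            refine ⟨g', hg', ?_, E, hE, hCh⟩
            intro _
            have e1 : 3 * b - (u - Nt N q) = (3 * b - (u + 1 - Nt N q)) + 1 := by omega
            rw [e1, pow_succ, ← Nat.div_div_eq_div_mul, hd (by omega)]
            omega
        · rw [if_neg h0] at hy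
          obtain ⟨g', hg', _, E, hE, hCh⟩ := ih hIy N q b c (u + 1) τ g t _ X S A hy
          exact ⟨g', hg', fun hle => absurd hle (by omega), E, hE, hCh⟩
  intro N q b c u τ g t D X S A h1 _ hI hr
  obtain ⟨g', hg', hd, hE⟩ := key _ hr hI N q b c u τ g t D X S A rfl
  exact ⟨g', hg', hd h1, hE⟩

end Pool.Agent.Helper4.CTG
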